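import Pool.Agent.Helper3.FewP.Goals3

/-!
# Packet STRIP-CV2 (MP_d3128a_ag): the minimum of the functional for `k` points
-/

set_option autoImplicit false

namespace Pool.Agent.Helper7.FewP

open Pool.Agent.Helper3.FewP

theorem half (s : ℤ) : 2 * (s * (s - 1) / 2) = s * (s - 1) :=
  Int.mul_ediv_cancel' (Int.even_mul_pred_self s).two_dvd

theorem FF_sub_s (k P r : ℕ) (j i s0 s : ℤ) :
    FF k P r j i s - FF k P r j i s0 = 4 * (P : ℤ) ^ 2 * k * ((s - s0) *
      (2 * k * DD P j (r + k * s0) + 2 * (P : ℤ) ^ 2 * k ^ 2 * (s - s0 - 1) + k - i)) := by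
  unfold FF ee DD
  linear_combination (8 * (k : ℤ) ^ 3 * (P : ℤ) ^ 4) * (half s) -
    (8 * (k : ℤ) ^ 3 * (P : ℤ) ^ 4) * (half s0)

theorem FF_sub_i (k P r : ℕ) (j i0 i s0 : ℤ) :
    FF k P r j i s0 - FF k P r j i0 s0 =
      (i - i0) * (2 * (P : ℤ) ^ 2 * (i + i0 + 1) - 1 - 2 * DD P j (r + k * s0)) := by
  unfold FF ee DD
  ring

theorem t : G_CV2 := by
  intro k P r j i0 s0 hk hP hi0 hi0k hD1 hD2 i s hi hik hne
  set D := DD P j (r + k * s0) with hD
  have hkz : (1 : ℤ) ≤ k := by exact_mod_cast hk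
  have hPz : (1 : ℤ) ≤ P := by exact_mod_cast hP
  have hP2 : (1 : ℤ) ≤ (P : ℤ) ^ 2 := one_le_pow₀ hPz
  have hD0 : 0 ≤ D := le_trans (by positivity) hD1
  have hDk : D ≤ 2 * (P : ℤ) ^ 2 * k - 1 := by nlinarith
  -- first inequality
  have h1 : s ≠ s0 → FF k P r j i s0 < FF k P r j i s := by
    intro hs
    have hpos : 0 < (s - s0) *
        (2 * k * D + 2 * (P : ℤ) ^ 2 * k ^ 2 * (s - s0 - 1) + k - i) := by
      rcases lt_or_gt_of_ne hs with h | h
      · -- `s < s0`
        have ha : 2 * (k : ℤ) * D ≤ 2 * k * (2 * (P : ℤ) ^ 2 * k - 1) :=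
          mul_le_mul_of_nonneg_left hDk (by positivity)
        have hb : 2 * (P : ℤ) ^ 2 * k ^ 2 * (s - s0 - 1) ≤ 2 * (P : ℤ) ^ 2 * k ^ 2 * (-2) :=
          mul_le_mul_of_nonneg_left (by omega) (by positivity)
        have hc : 2 * k * D + 2 * (P : ℤ) ^ 2 * k ^ 2 * (s - s0 - 1) + k - i < 0 := by
          nlinarith
        exact mul_pos_of_neg_of_neg (by omega) hc
      · have hb : 0 ≤ 2 * (P : ℤ) ^ 2 * k ^ 2 * (s - s0 - 1) :=
          mul_nonneg (by positivity) (by omega)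
        have ha : 0 ≤ 2 * (k : ℤ) * D := by positivity
        exact mul_pos (by omega) (by omega)
    have h := FF_sub_s k P r j i s0 s
    rw [← hD] at h
    have h4 : 0 < 4 * (P : ℤ) ^ 2 * k := by positivity
    have := mul_pos h4 hpos
    rw [← h] at this
    omega
  have h1' : FF k P r j i s0 ≤ FF k P r j i s := by
    by_cases hs : s = s0
    · rw [hs]
    · exact (h1 hs).le
  -- second inequality
  have h2 : i ≠ i0 → FF k P r j i0 s0 < FF k P r j i s0 := by
    intro hi'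
    have h := FF_sub_i k P r j i0 i s0
    rw [← hD] at h
    have hpos : 0 < (i - i0) * (2 * (P : ℤ) ^ 2 * (i + i0 + 1) - 1 - 2 * D) := by
      rcases lt_or_gt_of_ne hi' with h' | h'
      · have hb : 2 * (P : ℤ) ^ 2 * (i + i0 + 1) ≤ 2 * (P : ℤ) ^ 2 * (2 * i0) :=
          mul_le_mul_of_nonneg_left (by omega) (by positivity)
        exact mul_pos_of_neg_of_neg (by omega) (by nlinarith)
      · have hb : 2 * (P : ℤ) ^ 2 * (2 * i0 + 2) ≤ 2 * (P : ℤ) ^ 2 * (i + i0 + 1) :=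
          mul_le_mul_of_nonneg_left (by omega) (by positivity)
        exact mul_pos (by omega) (by nlinarith)
    rw [← h] at hpos
    omega
  rcases hne with h | h
  · exact lt_of_lt_of_le (h2 h) h1'
  · by_cases hi' : i = i0
    · subst hi'
      exact h1 h
    · exact lt_of_lt_of_le (h2 hi') h1'

end Pool.Agent.Helper7.FewP
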